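import Mathlib
import Pool.Agent.H924R2.FourTerm

/-!
All multiplicative relations between Weil numbers (the eigenvalue types of Tate classes on
abelian varieties over finite fields) are, after a finite extension of the ground field,
consequences of trivial ones and of relations of length four (codimension two) in which one
member is supersingular and another one is as close to supersingular as one wishes.
-/

namespace Pool.Agent.Results.MP_950c68_ag.CodimTwoGeneration

/-- Weil `Q`-numbers: algebraic integers `α` with `|φ α|² = Q` for all complex embeddings `φ`. -/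
def WeilNumber (Q : ℕ) (α : AlgebraicClosure ℚ) : Prop :=
  IsIntegral ℤ α ∧ ∀ φ : AlgebraicClosure ℚ →+* ℂ, ‖φ α‖ ^ 2 = Q

theorem result (q : ℕ) (hq : 0 < q) (K₀ : Subfield (AlgebraicClosure ℚ))
    (n : ℕ) (hn : 0 < n) (j : ℕ) (M : Multiset (AlgebraicClosure ℚ))
    -- `M` is a Tate type of codimension `j` over `𝔽_q`
    (hM : ∀ α ∈ M, WeilNumber q α ∧ α ∈ K₀) (hcard : M.card = 2 * j)
    (hprod : M.prod = (q : AlgebraicClosure ℚ) ^ j)
    -- the ground field is extended to the field with `R ^ 2` elements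
    (R : ℕ) (hR : R = q ^ (2 * j * n)) :
    (M.map (fun α => Finsupp.single (α ^ (4 * j * n)) (1 : ℤ))).sum ∈
      AddSubgroup.closure
        ({z : AlgebraicClosure ℚ →₀ ℤ | ∃ β : AlgebraicClosure ℚ,
            (WeilNumber (R ^ 2) β ∧ β ∈ K₀) ∧
            z = Finsupp.single β 1 + Finsupp.single ((R : AlgebraicClosure ℚ) ^ 2 / β) 1} ∪
         {z : AlgebraicClosure ℚ →₀ ℤ | ∃ β₁ β₂ β₃ γ : AlgebraicClosure ℚ,
            (WeilNumber (R ^ 2) β₁ ∧ β₁ ∈ K₀) ∧ (WeilNumber (R ^ 2) β₂ ∧ β₂ ∈ K₀) ∧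
            (WeilNumber (R ^ 2) β₃ ∧ β₃ ∈ K₀) ∧ (WeilNumber (R ^ 2) γ ∧ γ ∈ K₀) ∧
            β₁ * β₂ * β₃ = (R : AlgebraicClosure ℚ) ^ 3 ∧
            β₁ ^ n = (R : AlgebraicClosure ℚ) ^ (n - 1) * γ ∧
            z = Finsupp.single (R : AlgebraicClosure ℚ) 1 + Finsupp.single β₁ 1 +
              Finsupp.single β₂ 1 + Finsupp.single β₃ 1}) := by
  classical
  set H := AddSubgroup.closure
        ({z : AlgebraicClosure ℚ →₀ ℤ | ∃ β : AlgebraicClosure ℚ,
            (WeilNumber (R ^ 2) β ∧ β ∈ K₀) ∧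
            z = Finsupp.single β 1 + Finsupp.single ((R : AlgebraicClosure ℚ) ^ 2 / β) 1} ∪
         {z : AlgebraicClosure ℚ →₀ ℤ | ∃ β₁ β₂ β₃ γ : AlgebraicClosure ℚ,
            (WeilNumber (R ^ 2) β₁ ∧ β₁ ∈ K₀) ∧ (WeilNumber (R ^ 2) β₂ ∧ β₂ ∈ K₀) ∧
            (WeilNumber (R ^ 2) β₃ ∧ β₃ ∈ K₀) ∧ (WeilNumber (R ^ 2) γ ∧ γ ∈ K₀) ∧
            β₁ * β₂ * β₃ = (R : AlgebraicClosure ℚ) ^ 3 ∧
            β₁ ^ n = (R : AlgebraicClosure ℚ) ^ (n - 1) * γ ∧
            z = Finsupp.single (R : AlgebraicClosure ℚ) 1 + Finsupp.single β₁ 1 +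
              Finsupp.single β₂ 1 + Finsupp.single β₃ 1}) with hH
  rcases Nat.eq_zero_or_pos j with hj | hj
  · subst hj
    have hM0 : M = 0 := Multiset.card_eq_zero.1 (by omega)
    subst hM0
    rw [Multiset.map_zero, Multiset.sum_zero]
    exact H.zero_mem
  have hRR : R ^ 2 = q ^ (4 * j * n) := by rw [hR, ← pow_mul]; congr 1; ring
  have hRcast : (R : AlgebraicClosure ℚ) = (q : AlgebraicClosure ℚ) ^ (2 * j * n) := by
    rw [hR]; push_cast; rfl
  have hRne : (R : AlgebraicClosure ℚ) ≠ 0 := by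
    rw [hRcast]; exact pow_ne_zero _ (by exact_mod_cast hq.ne')
  let W : Set (AlgebraicClosure ℚ) :=
    {β | Pool.Agent.H924R2.IsWeil (q ^ (4 * j * n)) β ∧ β ∈ K₀}
  let D : AlgebraicClosure ℚ → AlgebraicClosure ℚ :=
    fun β => (q : AlgebraicClosure ℚ) ^ (4 * j * n) / β
  let A : Multiset (AlgebraicClosure ℚ) → Prop :=
    fun S => (S.map (fun α => Finsupp.single α (1 : ℤ))).sum ∈ H
  have hWiff : ∀ β, β ∈ W ↔ (WeilNumber (R ^ 2) β ∧ β ∈ K₀) := by
    intro β; rw [hRR]; exact Iff.rfl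
  have hDapp : ∀ β, D β = (R : AlgebraicClosure ℚ) ^ 2 / β := by
    intro β
    show (q : AlgebraicClosure ℚ) ^ (4 * j * n) / β = _
    rw [hRcast, ← pow_mul]
    congr 2
    ring
  have hpair : ∀ β ∈ W, (Finsupp.single β (1 : ℤ) + Finsupp.single (D β) 1 :
      AlgebraicClosure ℚ →₀ ℤ) ∈ H := by
    intro β hβ
    apply AddSubgroup.subset_closure
    left
    exact ⟨β, (hWiff β).1 hβ, by rw [hDapp]⟩
  have hc : Pool.Agent.H924R2.Closed W D A := by
    refine ⟨?_, ?_, ?_, ?_, ?_⟩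
    · intro β hβ
      refine ⟨?_, ?_⟩
      · have := Pool.Agent.H924R2.IsWeil.dual (pow_pos hq _) hβ.1
        rw [Nat.cast_pow] at this
        exact this
      · exact div_mem (pow_mem (natCast_mem K₀ q) _) hβ.2
    · intro β hβ
      exact div_div_cancel₀ (pow_ne_zero _ (by exact_mod_cast hq.ne'))
    · intro M₁ M₂ _ _ a1 a2
      show ((M₁ + M₂).map (fun α => Finsupp.single α (1 : ℤ))).sum ∈ H
      rw [Multiset.map_add, Multiset.sum_add]
      exact H.add_mem a1 a2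
    · intro M₁ β hβ _ a1
      have a2 : ((β ::ₘ D β ::ₘ M₁).map (fun α => Finsupp.single α (1 : ℤ))).sum ∈ H := a1
      rw [Multiset.map_cons, Multiset.map_cons, Multiset.sum_cons, Multiset.sum_cons,
        ← add_assoc] at a2
      exact (H.add_mem_cancel_left (hpair β hβ)).1 a2
    · intro β hβ
      show ((β ::ₘ D β ::ₘ 0).map (fun α => Finsupp.single α (1 : ℤ))).sum ∈ H
      rw [Multiset.map_cons, Multiset.map_cons, Multiset.sum_cons, Multiset.sum_cons,
        Multiset.map_zero, Multiset.sum_zero, add_zero]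
      exact hpair β hβ
  have hmain := Pool.Agent.H924R2.four_core q hq K₀ n j hn hj M hM hcard hprod W rfl D rfl A hc
    (by
      intro β₁ h1 β₂ h2 β₃ h3 hp hγ
      obtain ⟨γ, hγW, hγ⟩ := hγ
      rw [← hRcast]
      show (((R : AlgebraicClosure ℚ) ::ₘ β₁ ::ₘ β₂ ::ₘ β₃ ::ₘ 0).map
        (fun α => Finsupp.single α (1 : ℤ))).sum ∈ H
      apply AddSubgroup.subset_closure
      right
      refine ⟨β₁, β₂, β₃, γ, (hWiff _).1 h1, (hWiff _).1 h2, (hWiff _).1 h3, (hWiff _).1 hγW,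
        ?_, ?_, ?_⟩
      · rw [hp, hRcast, ← pow_mul]; congr 1; ring
      · rw [hγ, hRcast, ← pow_mul]
      · simp only [Multiset.map_cons, Multiset.sum_cons, Multiset.map_zero, Multiset.sum_zero]
        abel)
  have hmain2 : ((M.map (fun α => α ^ (4 * j * n))).map
      (fun α => Finsupp.single α (1 : ℤ))).sum ∈ H := hmain
  rw [Multiset.map_map] at hmain2
  exact hmain2

end Pool.Agent.Results.MP_950c68_ag.CodimTwoGeneration
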