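import Pool.Agent.H916Q.Assemble

/-!
# The Tate conjecture for Fermat varieties whose degree has many prime factors

Let `m` be prime to the prime `p` and not divisible by four. Suppose that the order of `p` modulo
`m` is odd and that any two different odd primes dividing `m` are squares modulo each other. Then
every Tate character of degree `m` in characteristic `p` becomes, after raising the degree to a
suitable multiple prime to `p`, a member of the closure of the characters of surfaces and of the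
standard characters of Aoki.
-/

namespace Pool.Agent.Results.MP_950c68_ag.FermatReciprocity

open Pool.Agent.H916T

theorem result (p m : ℕ) (hp : p.Prime) (hm : 0 < m) (hm4 : ¬ 4 ∣ m) (hpm : p.Coprime m)
    (hf : Odd (orderOf (p : ZMod m)))
    (hQR : ∀ ℓ r : ℕ, ℓ.Prime → r.Prime → Odd ℓ → Odd r → ℓ ∣ m → r ∣ m → ℓ ≠ r →
      IsSquare ((ℓ : ℕ) : ZMod r))
    (s : Multiset (ZMod m)) (hs : IsTate p m s) (hne : s ≠ 0) :
    ∃ N : ℕ, 0 < N ∧ p.Coprime N ∧
      Generated (N * m)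
        (fun t => SurfaceTate p (N * m) t ∨ ∃ q : ℕ, q.Prime ∧ q ∣ N * m ∧ Standard q (N * m) t)
        (s.map fun a => ((N * a.val : ℕ) : ZMod (N * m))) := by
  obtain ⟨k, n, hk, hkn, hn2⟩ : ∃ k n : ℕ, (k = 1 ∨ k = 2) ∧ k * n = m ∧ ¬ 2 ∣ n := by
    by_cases h : 2 ∣ m
    · obtain ⟨n, hn⟩ := h
      refine ⟨2, n, Or.inr rfl, hn.symm, ?_⟩
      rintro ⟨x, hx⟩
      exact hm4 ⟨x, by rw [hn, hx]; ring⟩
    · exact ⟨1, m, Or.inl rfl, one_mul m, h⟩
  have hn : 0 < n := Nat.pos_of_ne_zero (by rintro rfl; exact hn2 (dvd_zero 2))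
  have hodd : ∀ ℓ : ℕ, ℓ ∣ n → Odd ℓ := by
    intro ℓ hℓ
    rw [← Nat.not_even_iff_odd, even_iff_two_dvd]
    exact fun h => hn2 (h.trans hℓ)
  have hnm : n ∣ m := Dvd.intro_left k hkn
  have hPQR : H916Q.PQR n := by
    intro ℓ r hℓ hr hℓn hrn hne'
    exact hQR ℓ r hℓ hr (hodd ℓ hℓn) (hodd r hrn) (hℓn.trans hnm) (hrn.trans hnm) hne'
  obtain ⟨N, hN, hpN, H⟩ := H916Q.qr_main hp hn hk hkn hn2 hpm hf hPQR hs hne
  exact ⟨N, hN, hpN, H (N * m) rfl⟩

end Pool.Agent.Results.MP_950c68_ag.FermatReciprocity
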