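import Pool.Agent.H916U.Main

/-!
# The Tate conjecture for Fermat varieties whose degree has two prime factors

Let `u`, `v` be powers of two different primes and `m = u * v`, or `m = 2 * u * v` with `u`, `v` odd.
If `-1` is a power of `p` modulo `u` and modulo `v` (but not necessarily modulo `m`), then every Tate
character of degree `m` in characteristic `p` becomes, after raising the degree to a suitable
multiple prime to `p`, a member of the closure of the characters of surfaces and of the standard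
characters of Aoki.
-/

namespace Pool.Agent.Results.MP_950c68_ag.FermatTwoPrimes

open Pool.Agent.H916T

theorem result (p ℓ r a b m : ℕ) (hp : p.Prime) (hℓ : ℓ.Prime) (hr : r.Prime) (hne : ℓ ≠ r)
    (hm : m = ℓ ^ a * r ^ b ∨ (m = 2 * (ℓ ^ a * r ^ b) ∧ Odd (ℓ ^ a * r ^ b)))
    (hpm : p.Coprime m) (h1 : ∃ i : ℕ, (p : ZMod (ℓ ^ a)) ^ i = -1)
    (h2 : ∃ j : ℕ, (p : ZMod (r ^ b)) ^ j = -1) :
    ∃ N : ℕ, 0 < N ∧ p.Coprime N ∧ ∀ s : Multiset (ZMod m), IsTate p m s → s ≠ 0 →
      Generated (N * m)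
        (fun t => SurfaceTate p (N * m) t ∨ ∃ q : ℕ, q.Prime ∧ q ∣ m ∧ Standard q (N * m) t)
        (s.map fun a => ((N * a.val : ℕ) : ZMod (N * m))) := by
  have hC := Pool.Agent.H916U.cond_two_primes hℓ hr hne h1 h2
  have hpos : 0 < ℓ ^ a * r ^ b := Nat.mul_pos (pow_pos hℓ.pos a) (pow_pos hr.pos b)
  rcases hm with h | ⟨h, hodd⟩
  · exact Pool.Agent.H916U.main p m (ℓ ^ a * r ^ b) 1 hp (by omega) (by rw [h, one_mul])
      (Or.inl rfl) hpm hC
  · exact Pool.Agent.H916U.main p m (ℓ ^ a * r ^ b) 2 hp (by omega) (by rw [h])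
      (Or.inr ⟨rfl, hodd.not_two_dvd_nat⟩) hpm hC

end Pool.Agent.Results.MP_950c68_ag.FermatTwoPrimes
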