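import Mathlib
import Pool.Agent.H924R2.Weil

/-!
Tate classes on all powers of abelian varieties over finite fields: a 2-adic parity criterion.

`π` is the Frobenius of a simple abelian variety `A` over `𝔽_q`, `K = ℚ(π)`, the cohomology
`H^*(A^r, ℚ_ℓ)` is the exterior algebra of `V = H^1(A^r, ℚ_ℓ)`, on which Frobenius `Fr` is killed
by the minimal polynomial of `π`.
-/

namespace Pool.Agent.Results.MP_950c68_ag.TwoPowerPowers

open Module
open scoped IntermediateField

theorem result (p : ℕ) [Fact p.Prime] (a : ℕ) (ha : 0 < a) (q : ℕ) (hq : q = p ^ a)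
    -- the Weil `q`-number `π` and its field `K = ℚ(π)`
    (K : Type) [Field K] [NumberField K] (π : K) (hgen : ℚ⟮π⟯ = ⊤)
    (hweil : ∀ φ : K →+* ℂ, ‖φ π‖ ^ 2 = q)
    -- a totally real subfield `F` of `K` of index a power of two
    (F : Type) [Field F] [NumberField F] [NumberField.IsTotallyReal F] [Algebra F K]
    (k : ℕ) (hdeg : finrank F K = 2 ^ (k + 1))
    -- the normalised slopes `n τ = N (2 v(τ π) / v(q) - 1)`
    (N : ℕ) (n : (K →+* PadicAlgCl p) → ℤ)
    (hn : ∀ τ : K →+* PadicAlgCl p,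
      ‖τ π‖ ^ (2 * N) = ‖(q : PadicAlgCl p)‖ ^ ((N : ℤ) + n τ))
    -- the parity condition
    (ι₀ : F →+* PadicAlgCl p) (ε : ℤ) (hε : Even ε ∨ 4 ∣ finrank ℚ K)
    (hout : ∀ τ : K →+* PadicAlgCl p, τ.comp (algebraMap F K) ≠ ι₀ → Even (n τ - ε))
    (hin : Nat.card {τ : K →+* PadicAlgCl p //
      τ.comp (algebraMap F K) = ι₀ ∧ Odd (n τ - ε)} % 4 = 2)
    -- a Frobenius module killed by the minimal polynomial of `π`
    (E : Type) [Field E] [CharZero E] (V : Type) [AddCommGroup V] [Module E V]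
    [FiniteDimensional E V] (Fr : Module.End E V)
    (hFr : Polynomial.aeval Fr ((minpoly ℚ π).map (algebraMap ℚ E)) = 0)
    -- a Tate class of degree `2 j` over the extension of degree `s`
    (s : ℕ) (hs : 0 < s) (j : ℕ) (x : ExteriorAlgebra E V) (hx : x ∈ ⋀[E]^(2 * j) V)
    (hTx : ExteriorAlgebra.map (Fr ^ s) x = (q : E) ^ (s * j) • x) :
    x ∈ Algebra.adjoin E {y : ExteriorAlgebra E V |
      y ∈ ⋀[E]^2 V ∧ ExteriorAlgebra.map (Fr ^ s) y = (q : E) ^ s • y} := by
  have hp : p.Prime := Fact.out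
  have hq0 : 0 < q := by rw [hq]; exact pow_pos hp.pos a
  -- the norm of q
  have hnormp : ‖(p : PadicAlgCl p)‖ = (p : ℝ)⁻¹ := by
    have h1 : (p : PadicAlgCl p) = ((p : ℚ_[p]) : PadicAlgCl p) := by
      rw [map_natCast]
    rw [h1, PadicAlgCl.norm_extends, Padic.norm_p]
  have hnormq : ‖(q : PadicAlgCl p)‖ = ((p : ℝ)⁻¹) ^ a := by
    rw [hq, Nat.cast_pow, norm_pow, hnormp]
  have hp1 : (p : ℝ)⁻¹ < 1 := by
    rw [inv_lt_one₀ (by exact_mod_cast hp.pos)]
    exact_mod_cast hp.one_lt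
  have hp0 : 0 < (p : ℝ)⁻¹ := by
    rw [inv_pos]; exact_mod_cast hp.pos
  let ν : PadicAlgCl p →* ℝ := (normHom : PadicAlgCl p →*₀ ℝ).toMonoidHom
  have hν : ∀ x, ν x = ‖x‖ := fun x => rfl
  have hν0 : 0 < ν q := by rw [hν, hnormq]; exact pow_pos hp0 a
  have hν1 : ν q ≠ 1 := by
    rw [hν, hnormq]
    exact (pow_lt_one₀ hp0.le hp1 ha.ne').ne
  have htr : ∀ (φ : F →+* ℂ) (x : F), (starRingEnd ℂ) (φ x) = φ x := by
    intro φ x
    have h1 := NumberField.IsTotallyReal.isReal (NumberField.InfinitePlace.mk φ)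
    rw [NumberField.InfinitePlace.isReal_mk_iff] at h1
    exact RingHom.congr_fun h1 x
  have hn' : ∀ τ : K →+* PadicAlgCl p, ν (τ π) ^ (2 * N) = (ν q) ^ ((N : ℤ) + n τ) := by
    intro τ
    rw [hν, hν]; exact hn τ
  have hsep : ((minpoly ℚ π).map (algebraMap ℚ E)).Separable :=
    (minpoly.irreducible (Algebra.IsIntegral.isIntegral π)).separable.map
  have haeval : ∀ l : AlgebraicClosure E,
      Polynomial.aeval l ((minpoly ℚ π).map (algebraMap ℚ E)) = 0 →
      Polynomial.aeval l (minpoly ℚ π) = 0 := by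
    intro l hl
    rwa [Polynomial.aeval_map_algebraMap] at hl
  apply Pool.Agent.H924R2.lefschetz_general Fr _ hsep hFr s q j hq0.ne'
  · intro l hl
    have inst : DecidableEq (AlgebraicClosure E) := Classical.decEq _
    exact (Pool.Agent.H924R2.count_symm_roots (Ω := AlgebraicClosure E) ν q hq0 hν0 hν1 π hgen
      hweil htr k hdeg N n hn' ι₀ ε hε hout hin).1 l (haeval l hl)
  · intro Λ h1 h2 h3 l inst
    exact (Pool.Agent.H924R2.count_symm_roots (Ω := AlgebraicClosure E) ν q hq0 hν0 hν1 π hgen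
      hweil htr k hdeg N n hn' ι₀ ε hε hout hin).2 Λ j s hs h1
      (fun l hl => haeval l (h2 l hl)) h3 l
  · exact hx
  · exact hTx

end Pool.Agent.Results.MP_950c68_ag.TwoPowerPowers
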